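import Mathlib
import Pool.Agent.Q1.HomExt.Defs
import Pool.Agent.Q1.HomExt.Square

/-!
# MP_2a1499: a Hom-Ext quiver whose relations are not monomial

For every field `k` the path algebra of the quiver of type `D_4` with central source has an
exceptional collection of four modules whose Hom-Ext quiver is a commutative square: its ideal of
relations is not generated by monomial relations, whatever choice of arrows is made.
-/

namespace Pool.Agent.Results.MP_2a1499_al.CommutativeSquare

open Q1.HomExt

/-- **Disproof of Q1.** For every field `k` there are a finite acyclic quiver `Q` and an exceptional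
collection `X` of `kQ`-modules that has a Hom-Ext quiver, and for every Hom-Ext quiver of `X` (every
choice of arrows) the ideal of relations is not generated by paths of length at least two. -/
theorem result (k : Type) [Field k] :
    ∃ (Q : Type) (_ : Quiver.{0} Q), IsFiniteAcyclic Q ∧
      ∃ (ι : Type) (X : ι → QRep k Q), IsExceptionalCollection X ∧
        (∃ (_ : Quiver.{0} ι) (D : ArrowData X), D.IsHomExtQuiver) ∧
        ∀ (_ : Quiver.{0} ι) (D : ArrowData X), D.IsHomExtQuiver → ¬ D.IsMonomial :=
  ⟨D4.V, inferInstance, D4.finiteAcyclic, D4.I4, D4.X k, D4.collection,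
    ⟨D4.sqQuiver, D4.D0 k, D4.isHomExt⟩, fun _ D hD => D4.not_monomial D hD⟩

end Pool.Agent.Results.MP_2a1499_al.CommutativeSquare
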